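import Pool.Agent.H80.JD.Basic

/-!
# Board jd_modules (MP_38f78d_pr), module `CB`
-/

set_option autoImplicit false

namespace Pool.Agent.H33.JD

open Finset Filter Topology Pool.Agent.H80.JD

theorem central (k : ℕ) : k.centralBinom ^ 2 * (2 * k + 1) ≤ 16 ^ k := by
  induction k with
  | zero => simp
  | succ k ih =>
    have h1 := Nat.succ_mul_centralBinom_succ k
    have h2 : (k + 1) ^ 2 * ((k + 1).centralBinom ^ 2 * (2 * (k + 1) + 1)) ≤
        (k + 1) ^ 2 * 16 ^ (k + 1) := by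
      calc (k + 1) ^ 2 * ((k + 1).centralBinom ^ 2 * (2 * (k + 1) + 1))
          = ((k + 1) * (k + 1).centralBinom) ^ 2 * (2 * k + 3) := by ring
        _ = (2 * (2 * k + 1) * k.centralBinom) ^ 2 * (2 * k + 3) := by rw [h1]
        _ = 4 * ((2 * k + 1) * (2 * k + 3)) * (k.centralBinom ^ 2 * (2 * k + 1)) := by ring
        _ ≤ 4 * ((2 * k + 1) * (2 * k + 3)) * 16 ^ k := Nat.mul_le_mul_left _ ih
        _ ≤ 4 * (4 * (k + 1) ^ 2) * 16 ^ k := by
          apply Nat.mul_le_mul_right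
          apply Nat.mul_le_mul_left
          nlinarith
        _ = (k + 1) ^ 2 * 16 ^ (k + 1) := by ring
    exact Nat.le_of_mul_le_mul_left h2 (by positivity)

theorem middle (N : ℕ) : N.choose (N / 2) ^ 2 * N ≤ 4 ^ N := by
  rcases Nat.even_or_odd' N with ⟨k, hk | hk⟩
  · have h1 : N / 2 = k := by omega
    have h2 : N.choose (N / 2) = k.centralBinom := by rw [h1, hk]; rfl
    rw [h2]
    calc k.centralBinom ^ 2 * N ≤ k.centralBinom ^ 2 * (2 * k + 1) :=
          Nat.mul_le_mul_left _ (by omega)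
      _ ≤ 16 ^ k := central k
      _ = 4 ^ N := by rw [hk, pow_mul]; norm_num
  · have h1 : N / 2 = k := by omega
    have h2 : N.choose (N / 2) = (2 * k + 1).choose k := by rw [h1, hk]
    have h3 : (k + 1).centralBinom = 2 * (2 * k + 1).choose k := by
      have : (2 * (k + 1)).choose (k + 1) = (2 * k + 1).choose k + (2 * k + 1).choose (k + 1) :=
        Nat.choose_succ_succ (2 * k + 1) k
      rw [Nat.centralBinom_eq_two_mul_choose, this, Nat.choose_symm_half]
      ring
    have h4 := central (k + 1)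
    rw [h3] at h4
    rw [h2]
    have h5 : 4 * ((2 * k + 1).choose k ^ 2 * (2 * k + 3)) ≤ 4 * 4 ^ N := by
      calc 4 * ((2 * k + 1).choose k ^ 2 * (2 * k + 3))
          = (2 * (2 * k + 1).choose k) ^ 2 * (2 * (k + 1) + 1) := by ring
        _ ≤ 16 ^ (k + 1) := h4
        _ = 4 * 4 ^ N := by
          rw [hk, show (16 : ℕ) = 4 ^ 2 by norm_num, ← pow_mul]
          ring
    have h6 := Nat.le_of_mul_le_mul_left h5 (by norm_num)
    calc (2 * k + 1).choose k ^ 2 * N ≤ (2 * k + 1).choose k ^ 2 * (2 * k + 3) :=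
          Nat.mul_le_mul_left _ (by omega)
      _ ≤ 4 ^ N := h6

theorem cb : T_CB := by
  intro N t
  have h1 : (N.choose t : ℝ) ≤ N.choose (N / 2) := by
    exact_mod_cast Nat.choose_le_middle t N
  have h2 : (N.choose (N / 2) : ℝ) ^ 2 * N ≤ 4 ^ N := by exact_mod_cast middle N
  have h3 : (N.choose t : ℝ) * Real.sqrt N ≤ (N.choose (N / 2) : ℝ) * Real.sqrt N :=
    mul_le_mul_of_nonneg_right h1 (Real.sqrt_nonneg _)
  refine h3.trans ?_
  rw [← pow_le_pow_iff_left₀ (by positivity) (by positivity) (two_ne_zero)]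
  calc ((N.choose (N / 2) : ℝ) * Real.sqrt N) ^ 2 = (N.choose (N / 2) : ℝ) ^ 2 * N := by
        rw [mul_pow, Real.sq_sqrt (Nat.cast_nonneg _)]
    _ ≤ 4 ^ N := h2
    _ = (2 ^ N) ^ 2 := by
      rw [← pow_mul, mul_comm N 2, pow_mul]
      norm_num

end Pool.Agent.H33.JD
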