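import Pool.Agent.H80.JD.Walk

/-! FS: one step of the barrier function. -/

set_option autoImplicit false

namespace Pool.Agent.H33.JD.FS

open Finset Filter Topology Pool.Agent.H80.JD

/-- the one-variable inequality -/
theorem poly_ineq (t : ℝ) (h1 : |t| ≤ 1 / 8) : 1 ≤ (1 - t) ^ 4 * (1 + 4 * t + 16 * t ^ 2) := by
  obtain ⟨ha, hb⟩ := abs_le.mp h1
  have key : (1 - t) ^ 4 * (1 + 4 * t + 16 * t ^ 2) - 1
      = t ^ 2 * (6 - 44 * t + 81 * t ^ 2 - 60 * t ^ 3 + 16 * t ^ 4) := by ring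
  have hin : 0 ≤ 6 - 44 * t + 81 * t ^ 2 - 60 * t ^ 3 + 16 * t ^ 4 := by
    have h2 : 0 ≤ t ^ 2 := sq_nonneg t
    have h3 : 0 ≤ t ^ 2 * (81 - 60 * t) := mul_nonneg h2 (by linarith)
    have h4 : 0 ≤ t ^ 4 := by positivity
    nlinarith [h2, h3, h4]
  have := mul_nonneg (sq_nonneg t) hin
  linarith

theorem fs : T_FS := by
  intro B s x hs hB hx
  set y : ℝ := (s : ℝ) / B with hy
  set h : ℝ := hh B s with hh0
  have hB0 : 0 < B := lt_of_le_of_lt (abs_nonneg _) hs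
  have hy1 : |y| < 1 := by
    rw [hy, abs_div, abs_of_pos hB0]
    exact (div_lt_one hB0).mpr hs
  have hy2 : y ^ 2 < 1 := by
    have := sq_lt_sq' (by linarith [abs_nonneg y] : -1 < |y|) hy1
    rw [sq_abs] at this
    linarith
  have hu0 : 0 < 1 - y ^ 2 := by linarith
  have hh1 : h = 1 / (1 - y ^ 2) := by
    rw [hh0, hh, hy]
  have h1 : 1 ≤ h := by
    rw [hh1]
    rw [le_div_iff₀ hu0]
    nlinarith [sq_nonneg y]
  have hB24 : 24 ≤ B := by linarith
  have hpos : 0 < h := by linarith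
  have hinv : h * (1 - y ^ 2) = 1 := by
    rw [hh1]
    field_simp
  set xr : ℝ := (x : ℝ) with hxr
  have hx2 : xr ^ 2 = 1 := by
    rcases hx with h | h <;> rw [hxr, h] <;> norm_num
  have hxa : |xr| = 1 := by
    rcases hx with h | h <;> rw [hxr, h] <;> norm_num
  set d : ℝ := xr / B with hd
  have hda : |d| = 1 / B := by
    rw [hd, abs_div, hxa, abs_of_pos hB0]
  have hd2 : d ^ 2 = 1 / B ^ 2 := by
    rw [hd, div_pow, hx2]
  have hy' : ((s + x : ℤ) : ℝ) / B = y + d := by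
    rw [hy, hd, hxr]
    push_cast
    ring
  set θ : ℝ := (2 * y * d + d ^ 2) * h with hθ
  have hfac : h * (1 - (y + d) ^ 2) = 1 - θ := by
    rw [hθ]
    nlinarith [hinv]
  have hθa : |θ| ≤ 3 * h / B := by
    rw [hθ, abs_mul, abs_of_pos hpos]
    have e1 : |2 * y * d + d ^ 2| ≤ 3 / B := by
      calc |2 * y * d + d ^ 2| ≤ |2 * y * d| + |d ^ 2| := abs_add_le _ _
        _ = 2 * |y| * |d| + 1 / B ^ 2 := by
            rw [abs_mul, abs_mul, abs_of_nonneg (sq_nonneg d), hd2]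
            norm_num
        _ ≤ 2 * 1 * (1 / B) + 1 / B := by
            rw [hda]
            have h3 : 1 / B ^ 2 ≤ 1 / B := by
              apply one_div_le_one_div_of_le hB0
              nlinarith
            have h4 : 2 * |y| * (1 / B) ≤ 2 * 1 * (1 / B) := by
              apply mul_le_mul_of_nonneg_right _ (by positivity)
              linarith
            linarith
        _ = 3 / B := by ring
    calc |2 * y * d + d ^ 2| * h ≤ 3 / B * h := mul_le_mul_of_nonneg_right e1 hpos.le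
      _ = 3 * h / B := by ring
  have hhB : h / B ≤ 1 / 24 := by
    rw [div_le_iff₀ hB0]
    linarith
  have hθ8 : |θ| ≤ 1 / 8 := by
    have : 3 * h / B = 3 * (h / B) := by ring
    rw [this] at hθa
    linarith
  obtain ⟨hθl, hθu⟩ := abs_le.mp hθ8
  have hv0 : 0 < 1 - (y + d) ^ 2 := by
    have : 0 < h * (1 - (y + d) ^ 2) := by
      rw [hfac]
      linarith
    exact (mul_pos_iff_of_pos_left hpos).mp this
  have hθ1 : 0 < 1 - θ := by linarith
  have hnew : hh B (s + x) = h / (1 - θ) := by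
    rw [hh, hy', ← hfac]
    field_simp
  constructor
  · have h5 : (y + d) ^ 2 < 1 := by linarith
    have h6 : |y + d| < 1 := (sq_lt_one_iff_abs_lt_one _).mp h5
    rw [← hy', abs_div, abs_of_pos hB0, div_lt_one hB0] at h6
    exact h6
  · rw [hnew, div_pow]
    have hp := poly_ineq θ hθ8
    have h14 : 0 < (1 - θ) ^ 4 := by positivity
    have e1 : h ^ 4 / (1 - θ) ^ 4 ≤ h ^ 4 * (1 + 4 * θ + 16 * θ ^ 2) := by
      rw [div_le_iff₀ h14]
      have := mul_le_mul_of_nonneg_left hp (by positivity : 0 ≤ h ^ 4)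
      calc h ^ 4 = h ^ 4 * 1 := by ring
        _ ≤ h ^ 4 * ((1 - θ) ^ 4 * (1 + 4 * θ + 16 * θ ^ 2)) := this
        _ = _ := by ring
    have e2 : θ ^ 2 ≤ 9 * h ^ 2 / B ^ 2 := by
      have := pow_le_pow_left₀ (abs_nonneg θ) hθa 2
      rw [sq_abs] at this
      calc θ ^ 2 ≤ (3 * h / B) ^ 2 := this
        _ = 9 * h ^ 2 / B ^ 2 := by ring
    have e3 : h ^ 4 * (4 * θ) = xr * (8 * y / B * h ^ 5) + 4 / B ^ 2 * h ^ 5 := by
      rw [hθ]
      have : h ^ 4 * (4 * ((2 * y * d + d ^ 2) * h)) = 8 * y * d * h ^ 5 + 4 * d ^ 2 * h ^ 5 := by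
        ring
      rw [this, hd2, hd]
      ring
    have e4 : 4 / B ^ 2 * h ^ 5 ≤ 4 / B ^ 2 * h ^ 6 := by
      apply mul_le_mul_of_nonneg_left _ (by positivity)
      calc h ^ 5 = h ^ 5 * 1 := by ring
        _ ≤ h ^ 5 * h := mul_le_mul_of_nonneg_left h1 (by positivity)
        _ = h ^ 6 := by ring
    have e5 : h ^ 4 * (16 * θ ^ 2) ≤ 144 / B ^ 2 * h ^ 6 := by
      calc h ^ 4 * (16 * θ ^ 2) ≤ h ^ 4 * (16 * (9 * h ^ 2 / B ^ 2)) := by
            apply mul_le_mul_of_nonneg_left _ (by positivity)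
            linarith
        _ = 144 / B ^ 2 * h ^ 6 := by ring
    have e6 : dd B s = 8 * y / B * h ^ 5 := by
      rw [dd, ← hy, ← hh0]
    rw [e6]
    calc h ^ 4 / (1 - θ) ^ 4 ≤ h ^ 4 * (1 + 4 * θ + 16 * θ ^ 2) := e1
      _ = h ^ 4 + h ^ 4 * (4 * θ) + h ^ 4 * (16 * θ ^ 2) := by ring
      _ ≤ h ^ 4 + (xr * (8 * y / B * h ^ 5) + 4 / B ^ 2 * h ^ 6) + 144 / B ^ 2 * h ^ 6 := by
          rw [e3]
          linarith
      _ = h ^ 4 + xr * (8 * y / B * h ^ 5) + 148 / B ^ 2 * h ^ 6 := by ring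

end Pool.Agent.H33.JD.FS
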