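import Pool.Agent.H80.JD.Walk

/-!
# Board jd_modules (MP_38f78d_pr), module `KH`
-/

set_option autoImplicit false

namespace Pool.Agent.H33.JD.KH

open Finset Filter Topology Pool.Agent.H80.JD

theorem lin_cons {m : ℕ} (D : Fin (m + 1) → ℝ) (b : Bool) (w : Fin m → Bool) :
    lin D (Fin.cons b w) = D 0 * ((sg b : ℤ) : ℝ) + lin (fun j => D j.succ) w := by
  unfold lin
  rw [Fin.sum_univ_succ]
  simp only [Fin.cons_zero, Fin.cons_succ]

theorem sum_cons {m : ℕ} (f : (Fin (m + 1) → Bool) → ℝ) :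
    ∑ v, f v = ∑ w : Fin m → Bool, (f (Fin.cons true w) + f (Fin.cons false w)) := by
  rw [← Equiv.sum_comp (Fin.consEquiv (fun _ => Bool)) f, Fintype.sum_prod_type,
    Fintype.sum_bool, ← sum_add_distrib]
  rfl

theorem kh : T_KH := by
  intro m
  induction m with
  | zero =>
    intro D
    simp [lin]
  | succ m ih =>
    intro D
    obtain ⟨ih1, ih2⟩ := ih (fun j => D j.succ)
    have ht : ((sg true : ℤ) : ℝ) = -1 := by simp [sg]
    have hf : ((sg false : ℤ) : ℝ) = 1 := by simp [sg]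
    have hcard : ∑ _w : Fin m → Bool, (1 : ℝ) = 2 ^ m := by simp
    have hs : ∑ j, D j ^ 2 = D 0 ^ 2 + ∑ j : Fin m, D j.succ ^ 2 := Fin.sum_univ_succ _
    constructor
    · rw [sum_cons, hs]
      have h1 : ∀ w : Fin m → Bool, lin D (Fin.cons true w) ^ 2 + lin D (Fin.cons false w) ^ 2 =
          2 * lin (fun j => D j.succ) w ^ 2 + 2 * D 0 ^ 2 * 1 := by
        intro w
        rw [lin_cons, lin_cons, ht, hf]
        ring
      rw [sum_congr rfl (fun w _ => h1 w), sum_add_distrib, ← mul_sum, ← mul_sum, ih1, hcard]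
      ring
    · rw [sum_cons, hs]
      have h1 : ∀ w : Fin m → Bool, lin D (Fin.cons true w) ^ 4 + lin D (Fin.cons false w) ^ 4 =
          2 * lin (fun j => D j.succ) w ^ 4 + 12 * D 0 ^ 2 * lin (fun j => D j.succ) w ^ 2 +
            2 * D 0 ^ 4 * 1 := by
        intro w
        rw [lin_cons, lin_cons, ht, hf]
        ring
      rw [sum_congr rfl (fun w _ => h1 w), sum_add_distrib, sum_add_distrib, ← mul_sum,
        ← mul_sum, ← mul_sum, ih1, hcard]
      set s := ∑ j : Fin m, D j.succ ^ 2 with hsdef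
      have h2 : (0 : ℝ) ≤ 2 ^ m * D 0 ^ 4 := by positivity
      have h3 : 3 * 2 ^ (m + 1) * (D 0 ^ 2 + s) ^ 2 =
          2 * (3 * 2 ^ m * s ^ 2) + 12 * D 0 ^ 2 * (2 ^ m * s) + 6 * (2 ^ m * D 0 ^ 4) := by
        ring
      rw [h3]
      linarith

end Pool.Agent.H33.JD.KH
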