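import Pool.Agent.H80.JD.Basic

/-!
# Board jd_modules (MP_38f78d_pr), module `LIM`
-/

set_option autoImplicit false

namespace Pool.Agent.H33.JD

open Finset Filter Topology Pool.Agent.H80.JD

theorem choose_bound (x : ℝ) (hx : 0 < x) (hx1 : x < 1) (n : ℕ) :
    (n.choose ⌈x * n⌉₊ : ℝ) ≤ (1 / x) * Real.exp (n * (x * Real.log (Real.exp 1 / x))) := by
  set M := ⌈x * n⌉₊ with hM
  have hM1 : (M : ℝ) ≤ x * n + 1 := by
    have := Nat.ceil_lt_add_one (a := x * n) (by positivity)
    exact this.le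
  have h1 : (n.choose M : ℝ) ≤ (n : ℝ) ^ M / (M.factorial : ℝ) := Nat.choose_le_pow_div M n
  have h2 : (x * n) ^ M / (M.factorial : ℝ) ≤ Real.exp (x * n) :=
    Real.pow_div_factorial_le_exp (x * n) (by positivity) M
  have h3 : (n : ℝ) ^ M / (M.factorial : ℝ) = (1 / x) ^ M * ((x * n) ^ M / (M.factorial : ℝ)) := by
    rw [mul_pow, div_pow, one_pow]
    field_simp
  have hlog : 0 ≤ Real.log (1 / x) := Real.log_nonneg (by rw [le_div_iff₀ hx]; linarith)
  have h4 : (1 / x) ^ M ≤ Real.exp ((x * n + 1) * Real.log (1 / x)) := by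
    have h5 : (1 / x) ^ M = Real.exp (M * Real.log (1 / x)) := by
      rw [Real.exp_nat_mul, Real.exp_log (by positivity)]
    rw [h5]
    exact Real.exp_le_exp.2 (mul_le_mul_of_nonneg_right hM1 hlog)
  have h6 : Real.log (Real.exp 1 / x) = 1 + Real.log (1 / x) := by
    rw [Real.log_div (Real.exp_ne_zero 1) hx.ne', Real.log_exp, one_div, Real.log_inv]
    ring
  calc (n.choose M : ℝ) ≤ (1 / x) ^ M * ((x * n) ^ M / (M.factorial : ℝ)) := by
        rw [← h3]; exact h1
    _ ≤ Real.exp ((x * n + 1) * Real.log (1 / x)) * Real.exp (x * n) := by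
        apply mul_le_mul h4 h2 (by positivity) (Real.exp_pos _).le
    _ = (1 / x) * Real.exp (n * (x * Real.log (Real.exp 1 / x))) := by
        have h7 : (1 / x) = Real.exp (Real.log (1 / x)) := (Real.exp_log (by positivity)).symm
        rw [h6]
        nth_rewrite 2 [h7]
        rw [← Real.exp_add, ← Real.exp_add]
        congr 1
        ring

theorem pow_floor_bound (q α : ℝ) (hq : 0 < q) (hα : 0 < α) (n : ℕ) :
    q ^ ⌊α * n⌋₊ ≤ max 1 (1 / q) * Real.exp (n * (α * Real.log q)) := by
  set m := ⌊α * n⌋₊ with hm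
  have h1 : (m : ℝ) ≤ α * n := Nat.floor_le (by positivity)
  have h2 : α * n - 1 ≤ m := by
    have := Nat.lt_floor_add_one (α * n)
    linarith
  have h3 : q ^ m = Real.exp (m * Real.log q) := by
    rw [Real.exp_nat_mul, Real.exp_log hq]
  rw [h3]
  rcases le_total 1 q with hq1 | hq1
  · have hlog : 0 ≤ Real.log q := Real.log_nonneg hq1
    calc Real.exp (m * Real.log q) ≤ Real.exp (n * (α * Real.log q)) := by
          apply Real.exp_le_exp.2
          nlinarith
      _ = 1 * Real.exp (n * (α * Real.log q)) := (one_mul _).symm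
      _ ≤ _ := mul_le_mul_of_nonneg_right (le_max_left _ _) (Real.exp_pos _).le
  · have hlog : Real.log q ≤ 0 := Real.log_nonpos hq.le hq1
    have h4 : (1 / q) = Real.exp (-Real.log q) := by
      rw [Real.exp_neg, Real.exp_log hq, one_div]
    calc Real.exp (m * Real.log q) ≤ Real.exp (-Real.log q + n * (α * Real.log q)) := by
          apply Real.exp_le_exp.2
          nlinarith
      _ = (1 / q) * Real.exp (n * (α * Real.log q)) := by rw [Real.exp_add, h4]
      _ ≤ _ := mul_le_mul_of_nonneg_right (le_max_right _ _) (Real.exp_pos _).le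

theorem lim : T_LIM := by
  intro x α q c₀ J row hx hx1 hα hq hc₀ hrow0 hrow hneg
  set θ : ℝ := Real.log 2 + J * (x * Real.log (Real.exp 1 / x)) + α * Real.log q with hθ
  have hlim : Tendsto (fun n : ℕ => ((c₀ * (1 / x)) ^ J * max 1 (1 / q)) * Real.exp (n * θ)) atTop
      (𝓝 0) := by
    have h1 : Tendsto (fun n : ℕ => Real.exp θ ^ n) atTop (𝓝 0) :=
      tendsto_pow_atTop_nhds_zero_of_lt_one (Real.exp_pos _).le (by rw [Real.exp_lt_one_iff]; exact hneg)
    have h2 := h1.const_mul ((c₀ * (1 / x)) ^ J * max 1 (1 / q))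
    rw [mul_zero] at h2
    refine h2.congr ?_
    intro n
    rw [Real.exp_nat_mul]
  refine squeeze_zero' ?_ ?_ hlim
  · refine Eventually.of_forall ?_
    intro n
    have := hrow0 n
    positivity
  · filter_upwards [hrow] with n hn
    have h1 := choose_bound x hx hx1 n
    have h2 := pow_floor_bound q α hq hα n
    have h3 : (row n) ^ ⌊α * n⌋₊ ≤ q ^ ⌊α * n⌋₊ := pow_le_pow_left₀ (hrow0 n) hn _
    have h4 : (c₀ * (n.choose ⌈x * n⌉₊ : ℝ)) ^ J ≤
        (c₀ * (1 / x)) ^ J * Real.exp (n * (J * (x * Real.log (Real.exp 1 / x)))) := by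
      calc (c₀ * (n.choose ⌈x * n⌉₊ : ℝ)) ^ J ≤
          (c₀ * ((1 / x) * Real.exp (n * (x * Real.log (Real.exp 1 / x))))) ^ J := by
            apply pow_le_pow_left₀ (by positivity)
            exact mul_le_mul_of_nonneg_left h1 hc₀
        _ = _ := by
            rw [← mul_assoc, mul_pow, ← Real.exp_nat_mul]
            congr 2
            ring
    have h5 : (2 : ℝ) ^ n = Real.exp (n * Real.log 2) := by
      rw [Real.exp_nat_mul, Real.exp_log (by norm_num)]
    calc 2 ^ n * (c₀ * (n.choose ⌈x * n⌉₊ : ℝ)) ^ J * (row n) ^ ⌊α * n⌋₊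
        ≤ Real.exp (n * Real.log 2) *
          ((c₀ * (1 / x)) ^ J * Real.exp (n * (J * (x * Real.log (Real.exp 1 / x))))) *
          (max 1 (1 / q) * Real.exp (n * (α * Real.log q))) := by
          rw [h5]
          apply mul_le_mul _ (h3.trans h2) (pow_nonneg (hrow0 n) _) (by positivity)
          exact mul_le_mul_of_nonneg_left h4 (Real.exp_pos _).le
      _ = ((c₀ * (1 / x)) ^ J * max 1 (1 / q)) * (Real.exp (n * Real.log 2) *
          Real.exp (n * (J * (x * Real.log (Real.exp 1 / x)))) *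
          Real.exp (n * (α * Real.log q))) := by ring
      _ = ((c₀ * (1 / x)) ^ J * max 1 (1 / q)) * Real.exp (n * θ) := by
          rw [← Real.exp_add, ← Real.exp_add]
          congr 2
          rw [hθ]
          ring

end Pool.Agent.H33.JD
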