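import Pool.Agent.H80.JD.Walk

/-!
# Board jd_modules (MP_38f78d_pr), module `SMG`
-/

set_option autoImplicit false

namespace Pool.Agent.H33.JD.SMG

open Finset Filter Topology Pool.Agent.H80.JD

open Classical in
theorem card_eq_sum {α : Type} [Fintype α] (P : α → Prop) :
    (Nat.card {v : α // P v} : ℝ) = ∑ v, if P v then (1 : ℝ) else 0 := by
  rw [Nat.card_eq_fintype_card, Fintype.card_subtype, sum_boole]

open Classical in
theorem card_succ {X V : Type} [Fintype V] (step : X → V → X) (Φ : X → ℝ) (A : ℝ) (n : ℕ) (S : X)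
    (hS : ¬ A < Φ S) :
    (Nat.card {v : Fin (n + 1) → V // badSeq step Φ A (n + 1) S v} : ℝ) =
      ∑ v₀ : V, (Nat.card {w : Fin n → V // badSeq step Φ A n (step S v₀) w} : ℝ) := by
  rw [card_eq_sum, ← Equiv.sum_comp (Fin.consEquiv (fun _ => V))
    (fun v => if badSeq step Φ A (n + 1) S v then (1 : ℝ) else 0), Fintype.sum_prod_type]
  refine sum_congr rfl (fun v₀ _ => ?_)
  rw [card_eq_sum]
  refine sum_congr rfl (fun w _ => ?_)
  have h1 : badSeq step Φ A (n + 1) S (Fin.consEquiv (fun _ => V) (v₀, w)) ↔
      badSeq step Φ A n (step S v₀) w := by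
    have h2 : (Fin.consEquiv (fun _ => V) (v₀, w) : Fin (n + 1) → V) = Fin.cons v₀ w := rfl
    rw [h2, badSeq, Fin.cons_zero, Fin.tail_cons]
    constructor
    · rintro (h | h)
      · exact absurd h hS
      · exact h
    · exact Or.inr
  by_cases h3 : badSeq step Φ A n (step S v₀) w
  · rw [if_pos h3, if_pos (h1.2 h3)]
  · rw [if_neg h3, if_neg (fun h => h3 (h1.1 h))]

theorem smg : T_SMG := by
  intro X V _ step Φ A₀ A₁ A₂ η hη h1 h2 n
  induction n with
  | zero =>
    intro S
    rw [pow_zero, mul_one, Nat.cast_zero, zero_mul, add_zero]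
    by_cases hS : A₂ < Φ S
    · have h3 : (Nat.card {v : Fin 0 → V // badSeq step Φ A₂ 0 S v} : ℝ) ≤ 1 := by
        have h4 : Nat.card {v : Fin 0 → V // badSeq step Φ A₂ 0 S v} ≤ Nat.card (Fin 0 → V) :=
          Nat.card_le_card_of_injective Subtype.val Subtype.val_injective
        have h5 : Nat.card (Fin 0 → V) = 1 := Nat.card_unique
        rw [h5] at h4
        exact_mod_cast h4
      refine h3.trans ?_
      exact Real.one_le_exp (mul_nonneg hη (by linarith))
    · have h3 : IsEmpty {v : Fin 0 → V // badSeq step Φ A₂ 0 S v} := ⟨fun v => hS v.2⟩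
      rw [Nat.card_of_isEmpty, Nat.cast_zero]
      exact (Real.exp_pos _).le
  | succ n ih =>
    intro S
    have hcard : (0 : ℝ) ≤ Fintype.card V := Nat.cast_nonneg _
    have hE1 := (Real.exp_pos (η * (A₁ - A₂))).le
    by_cases hS : A₂ < Φ S
    · have h4 : Nat.card {v : Fin (n + 1) → V // badSeq step Φ A₂ (n + 1) S v} ≤
          Nat.card (Fin (n + 1) → V) :=
        Nat.card_le_card_of_injective Subtype.val Subtype.val_injective
      have h5 : Nat.card (Fin (n + 1) → V) = Fintype.card V ^ (n + 1) := by simp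
      rw [h5] at h4
      have h6 : (Nat.card {v : Fin (n + 1) → V // badSeq step Φ A₂ (n + 1) S v} : ℝ) ≤
          (Fintype.card V : ℝ) ^ (n + 1) := by exact_mod_cast h4
      refine h6.trans ?_
      have h7 : 1 ≤ Real.exp (η * (Φ S - A₂)) :=
        Real.one_le_exp (mul_nonneg hη (by linarith))
      have h8 : (1 : ℝ) ≤ Real.exp (η * (Φ S - A₂)) +
          ((n + 1 : ℕ) : ℝ) * Real.exp (η * (A₁ - A₂)) := by
        have : (0 : ℝ) ≤ ((n + 1 : ℕ) : ℝ) * Real.exp (η * (A₁ - A₂)) := by positivity
        linarith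
      calc (Fintype.card V : ℝ) ^ (n + 1) = 1 * (Fintype.card V : ℝ) ^ (n + 1) := (one_mul _).symm
        _ ≤ _ := mul_le_mul_of_nonneg_right h8 (by positivity)
    · rw [card_succ step Φ A₂ n S hS]
      have hS' : Φ S ≤ A₂ := not_lt.1 hS
      have h3 : ∑ v₀ : V, (Nat.card {w : Fin n → V // badSeq step Φ A₂ n (step S v₀) w} : ℝ) ≤
          (∑ v₀ : V, Real.exp (η * (Φ (step S v₀) - A₂)) +
            Fintype.card V * (n * Real.exp (η * (A₁ - A₂)))) * (Fintype.card V : ℝ) ^ n := by
        refine (sum_le_sum (fun v₀ _ => ih (step S v₀))).trans (le_of_eq ?_)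
        rw [← sum_mul, sum_add_distrib, sum_const, card_univ, nsmul_eq_mul]
      refine h3.trans ?_
      have h4 : ∑ v₀ : V, Real.exp (η * (Φ (step S v₀) - A₂)) ≤
          Fintype.card V * (Real.exp (η * (Φ S - A₂)) + Real.exp (η * (A₁ - A₂))) := by
        by_cases hA : A₀ ≤ Φ S
        · have h5 := h2 S hA hS'
          have h6 : ∀ a : ℝ, Real.exp (η * (a - A₂)) =
              Real.exp (η * a) * Real.exp (-(η * A₂)) := by
            intro a
            rw [← Real.exp_add]
            congr 1
            ring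
          have h7 : ∑ v₀ : V, Real.exp (η * (Φ (step S v₀) - A₂)) ≤
              Fintype.card V * Real.exp (η * (Φ S - A₂)) := by
            simp only [h6]
            rw [← sum_mul, ← mul_assoc]
            exact mul_le_mul_of_nonneg_right h5 (Real.exp_pos _).le
          refine h7.trans ?_
          exact mul_le_mul_of_nonneg_left (by linarith) hcard
        · have hA' : Φ S < A₀ := not_le.1 hA
          have h5 : ∑ v₀ : V, Real.exp (η * (Φ (step S v₀) - A₂)) ≤
              Fintype.card V * Real.exp (η * (A₁ - A₂)) := by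
            calc _ ≤ ∑ _v₀ : V, Real.exp (η * (A₁ - A₂)) := by
                  refine sum_le_sum (fun v₀ _ => ?_)
                  apply Real.exp_le_exp.2
                  have := h1 S v₀ hA'
                  exact mul_le_mul_of_nonneg_left (by linarith) hη
              _ = _ := by rw [sum_const, card_univ, nsmul_eq_mul]
          refine h5.trans ?_
          have := (Real.exp_pos (η * (Φ S - A₂))).le
          exact mul_le_mul_of_nonneg_left (by linarith) hcard
      have h5 : (0 : ℝ) ≤ (Fintype.card V : ℝ) ^ n := by positivity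
      calc (∑ v₀ : V, Real.exp (η * (Φ (step S v₀) - A₂)) +
            Fintype.card V * (n * Real.exp (η * (A₁ - A₂)))) * (Fintype.card V : ℝ) ^ n
          ≤ (Fintype.card V * (Real.exp (η * (Φ S - A₂)) + Real.exp (η * (A₁ - A₂))) +
            Fintype.card V * (n * Real.exp (η * (A₁ - A₂)))) * (Fintype.card V : ℝ) ^ n :=
            mul_le_mul_of_nonneg_right (by linarith) h5
        _ = _ := by
            push_cast
            ring

end Pool.Agent.H33.JD.SMG
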