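import Pool.Agent.H80.JD.Basic

/-!
# Board jd_modules (MP_38f78d_pr), module `UB`
-/

set_option autoImplicit false

namespace Pool.Agent.H33.JD

open Finset Filter Topology Pool.Agent.H80.JD

open Classical in
theorem card_rows_le {m n : ℕ} (R : ℤ → Prop) (L : List (Fin n → Bool)) (x : Fin n → Bool) :
    (univ.filter (fun G : Fin m → Fin n → Bool =>
      SolR R G x ∧ ∀ D ∈ L, SolR R G (xr x D))).card ≤ (E R L).card ^ m := by
  have h1 : (univ.filter (fun G : Fin m → Fin n → Bool =>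
      SolR R G x ∧ ∀ D ∈ L, SolR R G (xr x D))) ⊆
      Fintype.piFinset (fun _ : Fin m => univ.filter (fun g : Fin n → Bool =>
        xr g x ∈ E R L)) := by
    intro G hG
    rw [mem_filter] at hG
    obtain ⟨-, hG1, hG2⟩ := hG
    rw [Fintype.mem_piFinset]
    intro j
    rw [mem_filter]
    refine ⟨mem_univ _, ?_⟩
    rw [mem_E]
    refine ⟨?_, ?_⟩
    · rw [← ip_eq_ip_xr_zero]
      exact hG1 j
    · intro D hD
      rw [← ip_xr]
      exact hG2 D hD j
  refine (card_le_card h1).trans ?_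
  rw [Fintype.card_piFinset, prod_const, card_univ, Fintype.card_fin]
  apply Nat.pow_le_pow_left
  apply card_le_card_of_injOn (fun g => xr g x)
  · intro g hg
    exact (mem_filter.1 hg).2
  · intro g _ g' _ h
    apply xr_injective x
    rw [xr_comm x g, xr_comm x g']
    exact h

open Classical in
theorem ub : T_UB := by
  intro m n R 𝓛
  have h1 : (univ.filter (fun G : Fin m → Fin n → Bool =>
      ∃ x, ∃ L ∈ 𝓛, SolR R G x ∧ ∀ D ∈ L, SolR R G (xr x D))) ⊆
      (univ : Finset (Fin n → Bool)).biUnion (fun x => 𝓛.biUnion (fun L =>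
        univ.filter (fun G : Fin m → Fin n → Bool =>
          SolR R G x ∧ ∀ D ∈ L, SolR R G (xr x D)))) := by
    intro G hG
    rw [mem_filter] at hG
    obtain ⟨-, x, L, hL, hG⟩ := hG
    rw [mem_biUnion]
    refine ⟨x, mem_univ _, ?_⟩
    rw [mem_biUnion]
    refine ⟨L, hL, ?_⟩
    rw [mem_filter]
    exact ⟨mem_univ _, hG⟩
  have h2 : (univ.filter (fun G : Fin m → Fin n → Bool =>
      ∃ x, ∃ L ∈ 𝓛, SolR R G x ∧ ∀ D ∈ L, SolR R G (xr x D))).card ≤
      2 ^ n * ∑ L ∈ 𝓛, (E R L).card ^ m := by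
    calc _ ≤ _ := card_le_card h1
      _ ≤ ∑ x : Fin n → Bool, (𝓛.biUnion (fun L =>
        univ.filter (fun G : Fin m → Fin n → Bool =>
          SolR R G x ∧ ∀ D ∈ L, SolR R G (xr x D)))).card := card_biUnion_le
      _ ≤ ∑ x : Fin n → Bool, ∑ L ∈ 𝓛, (E R L).card ^ m := by
        apply sum_le_sum
        intro x _
        refine card_biUnion_le.trans ?_
        apply sum_le_sum
        intro L _
        exact card_rows_le R L x
      _ = 2 ^ n * ∑ L ∈ 𝓛, (E R L).card ^ m := by
        rw [sum_const, card_univ, smul_eq_mul]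
        congr 1
        simp
  unfold prob
  rw [Nat.card_eq_fintype_card, Fintype.card_subtype, div_le_iff₀ (by positivity)]
  have h3 : ((univ.filter (fun G : Fin m → Fin n → Bool =>
      ∃ x, ∃ L ∈ 𝓛, SolR R G x ∧ ∀ D ∈ L, SolR R G (xr x D))).card : ℝ) ≤
      2 ^ n * ∑ L ∈ 𝓛, ((E R L).card : ℝ) ^ m := by exact_mod_cast h2
  refine h3.trans (le_of_eq ?_)
  rw [mul_assoc]
  congr 1
  rw [sum_mul]
  refine sum_congr rfl ?_
  intro L _
  rw [div_pow, ← pow_mul, mul_comm n m, div_mul_cancel₀]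
  positivity

end Pool.Agent.H33.JD
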